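import Pool.Agent.T9h34.Q.Spec2

set_option autoImplicit false
set_option linter.unusedSectionVars false

/-!
# (G2) Induction over the gates of a circuit with nondecreasing gates
-/

namespace Pool.Agent.T9h51.QC

open Finset Pool.Agent.T9h34.Q
open Pool.Agent.T9h34 (graphInput)
open Pool.Agent.T9h34.P (gr graphInput_mono)
open Pool.Agent.T9h35.RW (Gate Test Src Circuit runGates runGates_append length_runGates
  getD_append_lt getD_append_eq runGates_mono forall₂_map_le)
open Pool.Agent.HC34 (srcs IsLevel DepthLE)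

section graphs

variable {V : Type} [Fintype V] [DecidableEq V] {B d m : ℕ}

theorem KT_mono {S T : Finset V} (h : S ⊆ T) : KT S ⊆ KT T :=
  filter_subset_filter _ (Finset.sym2_mono h)

theorem ixBelow_mono {a b : ℕ} (h : a ≤ b) : ixBelow B d m a ⊆ ixBelow B d m b := by
  intro i hi
  simp only [ixBelow, mem_filter, mem_univ, true_and] at hi ⊢
  omega

theorem stage_mono (ω : Env V B d m) {a b : ℕ} (h : a ≤ b) : stage ω a ⊆ stage ω b :=
  union_subset_union (Subset.refl _) (biUnion_subset_biUnion_of_subset_left _ (ixBelow_mono h))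

theorem marks_mono (ω : Env V B d m) {a b : ℕ} (h : a ≤ b) {S T : Finset V} (hST : S ⊆ T) :
    marks ω a S ⊆ marks ω b T := by
  intro e he
  simp only [marks, mem_biUnion, mem_image] at he ⊢
  obtain ⟨v, hv, i, hi, rfl⟩ := he
  exact ⟨v, hST hv, i, ixBelow_mono h hi, rfl⟩

/-- The graph of stage `a` with the marks and the edges of `T`. -/
def cfg (ω : Env V B d m) (a : ℕ) (T : Finset V) : Finset (Sym2 V) :=
  stage ω a ∪ marks ω a T ∪ KT T

theorem cfg_mono (ω : Env V B d m) {a b : ℕ} (h : a ≤ b) {S T : Finset V} (hST : S ⊆ T) :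
    cfg ω a S ⊆ cfg ω b T :=
  union_subset_union (union_subset_union (stage_mono ω h) (marks_mono ω h hST)) (KT_mono hST)

theorem sub_cfg (ω : Env V B d m) (a : ℕ) (T : Finset V) : ω.1 ⊆ cfg ω a T :=
  (subset_union_left.trans subset_union_left).trans subset_union_left

theorem cfg_empty (ω : Env V B d m) (a : ℕ) : cfg ω a ∅ = stage ω a := by
  simp [cfg, marks, KT]

/-- Common finite sets for the members of a list. -/
theorem exists_common {α : Type*} (S : Finset V) (c : ℕ) (Q : α → Finset V → Prop)
    (hQ : ∀ a (T T' : Finset V), T ⊆ T' → Q a T → Q a T') (l : List α)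
    (h : ∀ a ∈ l, ∃ T ⊆ S, T.card ≤ c ∧ Q a T) :
    ∃ T ⊆ S, T.card ≤ l.length * c ∧ ∀ a ∈ l, Q a T := by
  induction l with
  | nil => exact ⟨∅, by simp, by simp, by simp⟩
  | cons a l ih =>
    obtain ⟨T, hT, hTc, hTQ⟩ := ih (fun b hb => h b (by simp [hb]))
    obtain ⟨T', hT', hTc', hTQ'⟩ := h a (by simp)
    refine ⟨T ∪ T', union_subset hT hT', ?_, ?_⟩
    · refine (card_union_le _ _).trans ?_
      rw [List.length_cons, Nat.add_mul, Nat.one_mul]
      exact Nat.add_le_add hTc hTc'
    · intro b hb
      rcases List.mem_cons.mp hb with rfl | hb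
      · exact hQ _ _ _ subset_union_right hTQ'
      · exact hQ _ _ _ subset_union_left (hTQ b hb)

end graphs

section runs

variable {ι : Type*}

theorem getD_runGates (x : ι → Bool) (gs : List (Gate ι)) (j : ℕ) (g : Gate ι)
    (h : gs[j]? = some g) : (runGates x gs).getD j 0 = g.eval x (runGates x (gs.take j)) := by
  induction gs using List.reverseRecOn with
  | nil => simp at h
  | append_singleton gs g' ih =>
    rw [runGates_append]
    rcases lt_trichotomy j gs.length with hj | hj | hj
    · rw [getD_append_lt (by rw [length_runGates]; exact hj), List.take_append_of_le_length hj.le]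
      apply ih
      rwa [List.getElem?_append_left hj] at h
    · subst hj
      rw [getD_append_eq (by rw [length_runGates]), List.take_left]
      rw [List.getElem?_append_right (le_refl _)] at h
      simp only [Nat.sub_self, List.getElem?_cons_zero, Option.some.injEq] at h
      rw [h]
    · exfalso
      rw [List.getElem?_eq_none (by simp; omega)] at h
      exact absurd h (by simp)

theorem getD_runGates_of_le (x : ι → Bool) (gs : List (Gate ι)) (j : ℕ) (h : gs.length ≤ j) :
    (runGates x gs).getD j 0 = 0 :=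
  List.getD_eq_default _ _ (by rw [length_runGates]; exact h)

theorem getD_take (x : ι → Bool) (gs : List (Gate ι)) (i j : ℕ) (hij : i < j) :
    (runGates x (gs.take j)).getD i 0 = (runGates x gs).getD i 0 := by
  rcases h : gs[i]? with _ | g
  · have h1 : gs.length ≤ i := List.getElem?_eq_none_iff.mp h
    rw [getD_runGates_of_le x gs i h1, getD_runGates_of_le x _ i (by simp; omega)]
  · rw [getD_runGates x gs i g h, getD_runGates x (gs.take j) i g (by
      rw [List.getElem?_take, if_pos hij, h]), List.take_take, min_eq_left hij.le]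

end runs

section main

variable {n B d m : ℕ}

theorem graphInput_gr {U : Finset (Sym2 (Fin n))} {p : Fin n × Fin n} :
    graphInput (gr U) p = true ↔ p.1 ≠ p.2 ∧ s(p.1, p.2) ∈ U := by
  classical
  unfold graphInput
  rw [decide_eq_true_eq]
  exact Iff.rfl

/-- Inputs: at most two vertices are needed. -/
theorem input_case (ω : Env (Fin n) B d m) (S : Finset (Fin n)) (c t : ℕ) (hc : 2 ≤ c)
    (p : Fin n × Fin n) :
    ∃ T ⊆ S, T.card ≤ c ∧ (graphInput (gr (ω.1 ∪ KT S)) p = true →
      graphInput (gr (cfg ω t T)) p = true) := by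
  by_cases h : graphInput (gr (ω.1 ∪ KT S)) p = true
  · rw [graphInput_gr, mem_union] at h
    obtain ⟨h1, h2 | h2⟩ := h
    · refine ⟨∅, by simp, by simp, fun _ => ?_⟩
      rw [graphInput_gr]
      exact ⟨h1, sub_cfg ω t ∅ h2⟩
    · unfold KT at h2
      rw [mem_filter, Finset.mk_mem_sym2_iff] at h2
      refine ⟨{p.1, p.2}, ?_, (card_le_two).trans hc, fun _ => ?_⟩
      · intro x hx
        rw [mem_insert, mem_singleton] at hx
        rcases hx with rfl | rfl
        · exact h2.1.1
        · exact h2.1.2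
      · rw [graphInput_gr]
        refine ⟨h1, mem_union_right _ ?_⟩
        unfold KT
        rw [mem_filter, Finset.mk_mem_sym2_iff]
        exact ⟨⟨by simp, by simp⟩, h2.2⟩
  · exact ⟨∅, by simp, by simp, fun h' => absurd h' h⟩

theorem srcVal_mono (C : Circuit (Fin n × Fin n)) {f : ℕ} (hg : ∀ g ∈ C.gates, g.IsMono f)
    (a : Src (Fin n × Fin n)) : Monotone (srcVal C a) := by
  intro U U' hU
  exact Pool.Agent.T9h35.RW.Src.eval_mono (graphInput_mono hU)
    (runGates_mono (graphInput_mono hU) C.gates hg) a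

/-- The value of a source on the first gates. -/
noncomputable def valAt (gs : List (Gate (Fin n × Fin n))) (a : Src (Fin n × Fin n))
    (U : Finset (Sym2 (Fin n))) : ℝ :=
  a.eval (graphInput (gr U)) (runGates (graphInput (gr U)) gs)

theorem valAt_mono (gs : List (Gate (Fin n × Fin n))) {f : ℕ} (hg : ∀ g ∈ gs, g.IsMono f)
    (a : Src (Fin n × Fin n)) : Monotone (valAt gs a) := by
  intro U U' hU
  exact Pool.Agent.T9h35.RW.Src.eval_mono (graphInput_mono hU)
    (runGates_mono (graphInput_mono hU) gs hg) a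

/-- The step for one source. -/
theorem source_case (gs : List (Gate (Fin n × Fin n))) {f : ℕ} (hg : ∀ g ∈ gs, g.IsMono f)
    (ω : Env (Fin n) B d m) (S : Finset (Fin n)) (c t : ℕ) (hc : 2 ≤ c) (a : Src (Fin n × Fin n))
    (h : ∀ i < gs.length, a = .gate i → ∃ t' ≤ t, ∃ T ⊆ S, T.card ≤ c ∧
      valAt gs (.gate i) (ω.1 ∪ KT S) ≤ valAt gs (.gate i) (cfg ω t' T)) :
    ∃ T ⊆ S, T.card ≤ c ∧ valAt gs a (ω.1 ∪ KT S) ≤ valAt gs a (cfg ω t T) := by
  cases a with
  | input p =>
    obtain ⟨T, hT, hTc, hTp⟩ := input_case ω S c t hc p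
    refine ⟨T, hT, hTc, ?_⟩
    simp only [valAt, Src.eval]
    by_cases h1 : graphInput (gr (ω.1 ∪ KT S)) p = true
    · rw [if_pos h1, if_pos (hTp h1)]
    · rw [if_neg h1]
      split_ifs <;> norm_num
  | const b => exact ⟨∅, by simp, by simp, le_refl _⟩
  | gate i =>
    by_cases hi : i < gs.length
    · obtain ⟨t', ht', T, hT, hTc, hTv⟩ := h i hi rfl
      exact ⟨T, hT, hTc, hTv.trans (valAt_mono gs hg _ (cfg_mono ω ht' (Subset.refl _)))⟩
    · refine ⟨∅, by simp, by simp, ?_⟩
      simp only [valAt, Src.eval]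
      rw [getD_runGates_of_le _ _ _ (not_lt.mp hi), getD_runGates_of_le _ _ _ (not_lt.mp hi)]

theorem stCirc (hR : StReduce) : StCirc := by
  intro n B d m f c q D C lev hg hlev hL hf hc hq hqB ω S hB1 hB2
  have hred : ∀ (a : Src (Fin n × Fin n)) (t c' w : ℕ), (w ^ 2 + 1) * (w + 1) ≤ q →
      ∀ T ⊆ S, T.card ≤ w → ¬ Bad (srcVal C a) t q (c' + 1) w S ω →
      ∃ T' ⊆ T, T'.card ≤ c' ∧ srcVal C a (cfg ω t T) ≤ srcVal C a (cfg ω (t + q) T') :=
    fun a t c' w hw T hT hTw hb =>
      hR (Fin n) B d m (srcVal C a) (srcVal_mono C hg a) t q c' w hw ω S T hT hTw hb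
  have key : ∀ j : ℕ, j < C.size → ∃ T ⊆ S, T.card ≤ c ∧
      srcVal C (.gate j) (ω.1 ∪ KT S) ≤ srcVal C (.gate j) (cfg ω (q * (lev j + 1)) T) := by
    intro j
    induction j using Nat.strong_induction_on with
    | _ j ih =>
      intro hj
      obtain ⟨g, hgj⟩ : ∃ g, C.gates[j]? = some g :=
        ⟨_, List.getElem?_eq_getElem hj⟩
      have hgm : g.IsMono f := hg g (List.mem_of_getElem? hgj)
      have hval : ∀ U, srcVal C (.gate j) U = g.eval (graphInput (gr U))
          (runGates (graphInput (gr U)) (C.gates.take j)) := fun U =>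
        getD_runGates (graphInput (gr U)) C.gates j g hgj
      cases g with
      | other tests φ => exact absurd hgm (by simp [Gate.IsMono])
      | mono args φ =>
        have hpre : ∀ g ∈ C.gates.take j, g.IsMono f := fun g' hg' =>
          hg g' (List.mem_of_mem_take hg')
        have hsrc : ∀ a ∈ args, ∃ T ⊆ S, T.card ≤ c ∧
            valAt (C.gates.take j) a (ω.1 ∪ KT S) ≤
              valAt (C.gates.take j) a (cfg ω (q * lev j) T) := by
          intro a ha
          refine source_case (C.gates.take j) hpre ω S c (q * lev j) hc a ?_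
          intro i hi hai
          have hij : i < j := by
            rw [List.length_take] at hi
            exact hi.trans_le (min_le_left _ _)
          have hlt : lev i < lev j :=
            hL i j _ hgj (by simp only [srcs]; rw [← hai]; exact ha) hij
          obtain ⟨T, hT, hTc, hTv⟩ := ih i hij (hij.trans hj)
          refine ⟨q * (lev i + 1), Nat.mul_le_mul_left _ hlt, T, hT, hTc, ?_⟩
          have e : ∀ U, valAt (C.gates.take j) (.gate i) U = srcVal C (.gate i) U := fun U =>
            getD_take (graphInput (gr U)) C.gates i j hij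
          rw [e, e]
          exact hTv
        obtain ⟨T, hT, hTc, hTv⟩ := exists_common S c
          (fun a T => valAt (C.gates.take j) a (ω.1 ∪ KT S) ≤
              valAt (C.gates.take j) a (cfg ω (q * lev j) T))
          (fun a T T' hTT' h => h.trans
            (valAt_mono _ hpre a (cfg_mono ω (le_refl _) hTT'))) args hsrc
        have hTc' : T.card ≤ f * c := hTc.trans (Nat.mul_le_mul_right _ hgm.1)
        obtain ⟨T', hT', hTc'', hTv'⟩ := hred (.gate j) (q * lev j) c (f * c) hq T hT hTc' (hB1 j hj)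
        refine ⟨T', hT'.trans hT, hTc'', ?_⟩
        have e : q * (lev j + 1) = q * lev j + q := by ring
        rw [e]
        refine le_trans ?_ hTv'
        rw [hval, hval]
        exact hgm.2 _ _ (forall₂_map_le args _ _ hTv)
  have e : ∀ U, valAt C.gates C.out.1 U = srcVal C C.out.1 U := fun U => rfl
  obtain ⟨T, hT, hTc, hTv⟩ := source_case C.gates hg ω S c (q * D) hc C.out.1 (by
    intro i hi _
    obtain ⟨T, hT, hTc, hTv⟩ := key i hi
    exact ⟨q * (lev i + 1), Nat.mul_le_mul_left _ (hlev i hi), T, hT, hTc, hTv⟩)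
  have hcf : c ≤ f * c := by nlinarith
  have hq' : (c ^ 2 + 1) * (c + 1) ≤ q := by
    refine le_trans ?_ hq
    gcongr
  obtain ⟨T', hT', hTc', hTv'⟩ := hred C.out.1 (q * D) 0 c hq' T hT hTc hB2
  have hT0 : T' = ∅ := card_eq_zero.mp (Nat.le_zero.mp hTc')
  subst hT0
  rw [cfg_empty] at hTv'
  refine (hTv.trans hTv').trans (srcVal_mono C hg _ (stage_mono ω ?_))
  calc q * D + q = q * (D + 1) := by ring
    _ ≤ B := hqB

end main

end Pool.Agent.T9h51.QC
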