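import Pool.Agent.T9h34.Q.Spec4
import Pool.Agent.T9h51.QC.Circ

set_option autoImplicit false

/-!
# (S2) A circuit which adds all inputs

Gate number `t < n ^ 2 - 1` adds the nodes `2 t`, `2 t + 1`; the node `u` is the input number `u` if
`u < n ^ 2` and gate `u - n ^ 2` otherwise.
-/

namespace Pool.Agent.T9h51.QC

open Finset Pool.Agent.T9h34.Q
open Pool.Agent.T9h35.RW (Gate Test Src Circuit runGates runGates_append length_runGates test_eval
  Nondecreasing)
open Pool.Agent.HC34 (srcs IsLevel DepthLE)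

/-- node number `u` -/
def nd (n u : ℕ) : Src (Fin n × Fin n) :=
  if h : u < n * n then .input (finProdFinEquiv.symm ⟨u, h⟩) else .gate (u - n * n)

/-- the circuit -/
def sumC (n : ℕ) (θ : ℝ) : Circuit (Fin n × Fin n) where
  gates := (List.range (n * n - 1)).map
    (fun t => Gate.mono [nd n (2 * t), nd n (2 * t + 1)] (fun l => l.sum))
  out := (.gate (n * n - 2), θ)

theorem getElem?_sumC {n : ℕ} {θ : ℝ} {j : ℕ} {g : Gate (Fin n × Fin n)}
    (h : (sumC n θ).gates[j]? = some g) :
    j < n * n - 1 ∧ g = Gate.mono [nd n (2 * j), nd n (2 * j + 1)] (fun l => l.sum) := by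
  unfold sumC at h
  simp only [List.getElem?_map, Option.map_eq_some_iff] at h
  obtain ⟨t, h1, h2⟩ := h
  rw [List.getElem?_eq_some_iff] at h1
  obtain ⟨h3, h4⟩ := h1
  rw [List.getElem_range] at h4
  subst h4
  rw [List.length_range] at h3
  exact ⟨h3, h2.symm⟩

theorem getElem?_sumC' {n : ℕ} {θ : ℝ} {j : ℕ} (hj : j < n * n - 1) :
    (sumC n θ).gates[j]? = some (Gate.mono [nd n (2 * j), nd n (2 * j + 1)] (fun l => l.sum)) := by
  unfold sumC
  simp only [List.getElem?_map, Option.map_eq_some_iff]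
  exact ⟨j, List.getElem?_range hj, rfl⟩

section value

variable {n : ℕ} (θ : ℝ) (x : Fin n × Fin n → Bool)

/-- the value of gate `t` -/
noncomputable def vg (t : ℕ) : ℝ := (runGates x (sumC n θ).gates).getD t 0

/-- the value of node `u` -/
noncomputable def vn (u : ℕ) : ℝ :=
  if h : u < n * n then (if x (finProdFinEquiv.symm ⟨u, h⟩) = true then 1 else 0)
  else vg θ x (u - n * n)

theorem nd_eval (t u : ℕ) (h : u - n * n < t) :
    (nd n u).eval x (runGates x ((sumC n θ).gates.take t)) = vn θ x u := by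
  unfold nd vn
  by_cases h1 : u < n * n
  · rw [dif_pos h1, dif_pos h1]
    rfl
  · rw [dif_neg h1, dif_neg h1]
    exact getD_take x (sumC n θ).gates (u - n * n) t h

theorem vg_eq (t : ℕ) (ht : t < n * n - 1) : vg θ x t = vn θ x (2 * t) + vn θ x (2 * t + 1) := by
  unfold vg
  rw [getD_runGates x (sumC n θ).gates t _ (getElem?_sumC' ht)]
  show ([nd n (2 * t), nd n (2 * t + 1)].map
    (fun a => a.eval x (runGates x ((sumC n θ).gates.take t)))).sum = _
  simp only [List.map_cons, List.map_nil, List.sum_cons, List.sum_nil, add_zero]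
  by_cases ht0 : t = 0
  · subst ht0
    have h0 : 0 < n * n := by omega
    have h1 : 1 < n * n := by omega
    have e : ∀ u, u < n * n → (nd n u).eval x (runGates x ((sumC n θ).gates.take 0)) = vn θ x u := by
      intro u hu
      unfold nd vn
      rw [dif_pos hu, dif_pos hu]
      rfl
    rw [e _ (by omega), e _ (by omega)]
  · rw [nd_eval θ x t _ (by omega), nd_eval θ x t _ (by omega)]

theorem tot (s : ℕ) (hs : s ≤ n * n - 1) :
    ∑ u ∈ Ico (2 * s) (n * n + s), vn θ x u = ∑ u ∈ Ico 0 (n * n), vn θ x u := by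
  induction s with
  | zero => simp
  | succ s ih =>
    rw [← ih (by omega)]
    rw [sum_eq_sum_Ico_succ_bot (by omega : 2 * s < n * n + s),
      sum_eq_sum_Ico_succ_bot (by omega : 2 * s + 1 < n * n + s),
      show n * n + (s + 1) = (n * n + s) + 1 by ring, show 2 * (s + 1) = 2 * s + 1 + 1 by ring,
      sum_Ico_succ_top (by omega : 2 * s + 1 + 1 ≤ n * n + s)]
    have h1 : vn θ x (n * n + s) = vg θ x s := by
      unfold vn
      rw [dif_neg (by omega)]
      congr 1
      omega
    rw [h1, vg_eq θ x s (by omega)]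
    ring

theorem leaves : ∑ u ∈ Ico 0 (n * n), vn θ x u =
    ∑ p : Fin n × Fin n, (if x p = true then (1 : ℝ) else 0) := by
  rw [← Finset.range_eq_Ico, ← Fin.sum_univ_eq_sum_range, ← Equiv.sum_comp finProdFinEquiv]
  refine sum_congr rfl fun p _ => ?_
  unfold vn
  rw [dif_pos (finProdFinEquiv p).isLt]
  have : (⟨((finProdFinEquiv p : Fin (n * n)) : ℕ), (finProdFinEquiv p).isLt⟩ : Fin (n * n)) =
      finProdFinEquiv p := rfl
  rw [this, Equiv.symm_apply_apply]

theorem last (hn : 2 ≤ n) : vg θ x (n * n - 2) =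
    ∑ p : Fin n × Fin n, (if x p = true then (1 : ℝ) else 0) := by
  have h4 : 4 ≤ n * n := by nlinarith
  rw [← leaves θ x, ← tot θ x (n * n - 1) le_rfl,
    show n * n + (n * n - 1) = 2 * (n * n - 1) + 1 by omega, Nat.Ico_succ_singleton,
    sum_singleton]
  unfold vn
  rw [dif_neg (by omega)]
  congr 1
  omega

end value

/-- the level of a gate -/
def lev (m t : ℕ) : ℕ := Nat.clog 2 m - Nat.clog 2 (m - t)

theorem clog_two_mul (r : ℕ) (hr : 2 ≤ r) :
    Nat.clog 2 (2 * r) = Nat.clog 2 r + 1 ∧ Nat.clog 2 (2 * r - 1) = Nat.clog 2 r + 1 := by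
  constructor
  · rw [Nat.clog_of_two_le (by norm_num) (by omega)]
    congr 2
    omega
  · rw [Nat.clog_of_two_le (by norm_num) (by omega)]
    congr 2
    omega

theorem lev_lt (m i j : ℕ) (hj : j < m - 1) (hi : i + m = 2 * j ∨ i + m = 2 * j + 1) :
    lev m i < lev m j := by
  unfold lev
  obtain ⟨e1, e2⟩ := clog_two_mul (m - j) (by omega)
  have hc : Nat.clog 2 (m - i) = Nat.clog 2 (m - j) + 1 := by
    rcases hi with hi | hi
    · rw [← e1]
      congr 1
      omega
    · rw [← e2]
      congr 1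
      omega
  have h3 : Nat.clog 2 (m - i) ≤ Nat.clog 2 m := Nat.clog_mono_right 2 (by omega)
  omega

/-- (S2) -/
theorem stSum : StSum := by
  intro n hn θ
  have h4 : 4 ≤ n * n := by nlinarith
  refine ⟨sumC n θ, ?_, ?_, ?_, ⟨lev (n * n), ?_, ?_⟩, ?_⟩
  · intro g hg
    obtain ⟨j, hj⟩ := List.getElem?_of_mem hg
    obtain ⟨-, rfl⟩ := getElem?_sumC hj
    refine ⟨by simp, ?_⟩
    intro u v huv
    exact huv.sum_le_sum
  · unfold Circuit.numTests sumC
    rw [List.map_map]
    apply List.sum_eq_zero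
    intro a ha
    rw [List.mem_map] at ha
    obtain ⟨t, -, rfl⟩ := ha
    rfl
  · unfold Circuit.size sumC
    rw [List.length_map, List.length_range]
    have : n ^ 2 = n * n := by ring
    omega
  · intro j hj
    unfold Circuit.size sumC at hj
    rw [List.length_map, List.length_range] at hj
    unfold lev
    have h5 : 1 ≤ Nat.clog 2 (n * n - j) := Nat.clog_pos (by norm_num) (by omega)
    have h6 : Nat.clog 2 (n * n) ≤ 2 * Nat.log 2 n + 2 := by
      rw [Nat.clog_le_iff_le_pow (by norm_num)]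
      have h7 : n < 2 ^ (Nat.log 2 n + 1) := Nat.lt_pow_succ_log_self (by norm_num) n
      calc n * n ≤ 2 ^ (Nat.log 2 n + 1) * 2 ^ (Nat.log 2 n + 1) := Nat.mul_le_mul h7.le h7.le
        _ = 2 ^ (2 * Nat.log 2 n + 2) := by rw [← pow_add]; congr 1; ring
    omega
  · intro i j g hg hi hij
    obtain ⟨hj, rfl⟩ := getElem?_sumC hg
    simp only [srcs, List.mem_cons, List.not_mem_nil, or_false] at hi
    have key : ∀ u, Src.gate i = nd n u → n * n ≤ u ∧ i = u - n * n := by
      intro u hu
      unfold nd at hu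
      by_cases h : u < n * n
      · rw [dif_pos h] at hu
        exact absurd hu (by simp)
      · rw [dif_neg h] at hu
        exact ⟨not_lt.mp h, by simpa using hu⟩
    rcases hi with hi | hi
    · obtain ⟨h5, h6⟩ := key _ hi
      exact lev_lt (n * n) i j hj (Or.inl (by omega))
    · obtain ⟨h5, h6⟩ := key _ hi
      exact lev_lt (n * n) i j hj (Or.inr (by omega))
  · intro x
    unfold Circuit.eval
    rw [test_eval]
    show θ ≤ vg θ x (n * n - 2) ↔ _
    rw [last θ x hn]

end Pool.Agent.T9h51.QC
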