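import Pool.Agent.T9h34.Q.Spec4
import Pool.Agent.T9h51.QC.Circ
import Pool.Agent.T9h68.QC.Gr

set_option autoImplicit false
set_option linter.unusedSectionVars false

/-!
# (S1) Counting the edges
-/

namespace Pool.Agent.T9h51.QC

open Finset Pool.Agent.T9h34.Q
open Pool.Agent.PC34 (prob withClique)
open Pool.Agent.T9h34 (graphInput)
open Pool.Agent.T9h34.P (gr)

section flip

variable {E : Type} [Fintype E] [DecidableEq E]

/-- `1 / 2` if `e ∈ U`, `-1 / 2` otherwise -/
noncomputable def w (e : E) (U : Finset E) : ℝ := if e ∈ U then 1 / 2 else -(1 / 2)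

theorem w_mul_self (e : E) (U : Finset E) : w e U * w e U = 1 / 4 := by
  unfold w
  split_ifs <;> norm_num

/-- change the membership of `e` -/
def fl (e : E) : Equiv.Perm (Finset E) where
  toFun U := symmDiff U {e}
  invFun U := symmDiff U {e}
  left_inv U := by simp
  right_inv U := by simp

theorem w_fl (e : E) (U : Finset E) : w e (fl e U) = - w e U := by
  unfold w fl
  simp only [Equiv.coe_fn_mk, mem_symmDiff, mem_singleton]
  by_cases h : e ∈ U <;> simp [h]

theorem w_fl_ne {e e' : E} (h : e' ≠ e) (U : Finset E) : w e' (fl e U) = w e' U := by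
  unfold w fl
  simp only [Equiv.coe_fn_mk, mem_symmDiff, mem_singleton]
  by_cases h' : e' ∈ U <;> simp [h', h]

theorem sum_w (e : E) : ∑ U : Finset E, w e U = 0 := by
  have h := Equiv.sum_comp (fl e) (fun U => w e U)
  simp only [w_fl, sum_neg_distrib] at h
  linarith

theorem sum_w_mul {e e' : E} (h : e ≠ e') : ∑ U : Finset E, w e U * w e' U = 0 := by
  have h1 := Equiv.sum_comp (fl e) (fun U => w e U * w e' U)
  simp only [w_fl, w_fl_ne h.symm, neg_mul, sum_neg_distrib] at h1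
  linarith

end flip

section prob

theorem prob_eq2 {Ω : Type} [Fintype Ω] (A : Ω → Prop) [DecidablePred A] :
    prob A = (∑ ω, if A ω then (1 : ℝ) else 0) / Fintype.card Ω := by
  unfold prob
  rw [Finset.sum_boole]
  congr

theorem prob_equiv2 {Ω Ω' : Type} [Fintype Ω] [Fintype Ω'] (e : Ω ≃ Ω') (A : Ω' → Prop) :
    prob (fun ω => A (e ω)) = prob A := by
  classical
  rw [prob_eq2, prob_eq2, Fintype.card_congr e, Equiv.sum_comp e (fun ω => if A ω then (1 : ℝ) else 0)]

end prob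

section counts

variable {n : ℕ}

/-- the number of ordered pairs of adjacent vertices -/
def xn (U : Finset (Sym2 (Fin n))) : ℕ :=
  ((univ : Finset (Fin n)).offDiag.filter (fun p => s(p.1, p.2) ∈ U)).card

/-- the same with the clique on `S` -/
def yn (U : Finset (Sym2 (Fin n))) (S : Finset (Fin n)) : ℕ :=
  ((univ : Finset (Fin n)).offDiag.filter (fun p => s(p.1, p.2) ∈ U ∨ (p.1 ∈ S ∧ p.2 ∈ S))).card

theorem sum_x (U : Finset (Sym2 (Fin n))) :
    ∑ p : Fin n × Fin n, (if graphInput (gr U) p = true then (1 : ℝ) else 0) = xn U := by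
  rw [Finset.sum_boole]
  unfold xn
  congr 2
  ext p
  simp [graphInput_gr, mem_offDiag]

theorem graphInput_wc {U : Finset (Sym2 (Fin n))} {S : Finset (Fin n)} {p : Fin n × Fin n} :
    graphInput (withClique (gr U) S) p = true ↔
      p.1 ≠ p.2 ∧ (s(p.1, p.2) ∈ U ∨ (p.1 ∈ S ∧ p.2 ∈ S)) := by
  classical
  unfold graphInput
  rw [decide_eq_true_eq]
  simp only [withClique, gr]
  tauto

theorem sum_y (U : Finset (Sym2 (Fin n))) (S : Finset (Fin n)) :
    ∑ p : Fin n × Fin n, (if graphInput (withClique (gr U) S) p = true then (1 : ℝ) else 0) =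
      yn U S := by
  rw [Finset.sum_boole]
  unfold yn
  congr 2
  ext p
  simp [graphInput_wc, mem_offDiag]

/-- the deviation from the mean -/
noncomputable def Z (U : Finset (Sym2 (Fin n))) : ℝ :=
  ∑ p ∈ (univ : Finset (Fin n)).offDiag, w s(p.1, p.2) U

theorem card_off : (((univ : Finset (Fin n)).offDiag.card : ℕ) : ℝ) = n * n - n := by
  rw [offDiag_card, card_univ, Fintype.card_fin, Nat.cast_sub (Nat.le_mul_self n), Nat.cast_mul]

theorem xn_eq (U : Finset (Sym2 (Fin n))) : (xn U : ℝ) = ((n : ℝ) * n - n) / 2 + Z U := by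
  unfold xn Z
  rw [← Finset.sum_boole, ← card_off, ← mul_one_div, ← nsmul_eq_mul, ← sum_const,
    ← sum_add_distrib]
  refine sum_congr rfl fun p _ => ?_
  unfold w
  split_ifs <;> norm_num

theorem yn_eq (U : Finset (Sym2 (Fin n))) (S : Finset (Fin n)) :
    (yn U S : ℝ) = xn U + ∑ p ∈ S.offDiag, (1 / 2 - w s(p.1, p.2) U) := by
  have h1 : S.offDiag = (univ : Finset (Fin n)).offDiag.filter (fun p => p.1 ∈ S ∧ p.2 ∈ S) := by
    ext p
    simp only [mem_offDiag, mem_filter, mem_univ, true_and]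
    tauto
  unfold yn xn
  rw [h1, ← Finset.sum_boole, ← Finset.sum_boole, sum_filter, ← sum_add_distrib]
  refine sum_congr rfl fun p _ => ?_
  unfold w
  by_cases h2 : s(p.1, p.2) ∈ U <;> by_cases h3 : p.1 ∈ S ∧ p.2 ∈ S <;> simp [h2, h3] <;>
    norm_num

theorem yn_bounds (U : Finset (Sym2 (Fin n))) (S : Finset (Fin n)) :
    xn U ≤ yn U S ∧ yn U S ≤ xn U + (S.card * S.card - S.card) := by
  constructor
  · unfold xn yn
    refine card_le_card ?_
    intro p hp
    rw [mem_filter] at hp ⊢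
    exact ⟨hp.1, Or.inl hp.2⟩
  · unfold xn yn
    rw [filter_or]
    refine (card_union_le _ _).trans ?_
    refine Nat.add_le_add_left ?_ _
    rw [← offDiag_card]
    refine card_le_card ?_
    intro p hp
    simp only [mem_offDiag, mem_filter, mem_univ, true_and] at hp ⊢
    exact ⟨hp.2.1, hp.2.2, hp.1⟩

/-- the mean of the number of new pairs -/
theorem sum_D (S : Finset (Fin n)) :
    ∑ U : Finset (Sym2 (Fin n)), ((yn U S : ℝ) - xn U) =
      (S.card * S.card - S.card) / 2 * Fintype.card (Finset (Sym2 (Fin n))) := by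
  have h1 : ∀ U : Finset (Sym2 (Fin n)), (yn U S : ℝ) - xn U =
      ∑ p ∈ S.offDiag, (1 / 2 - w s(p.1, p.2) U) := by
    intro U
    rw [yn_eq]
    ring
  simp only [h1]
  rw [sum_comm]
  have h2 : ∀ p : Fin n × Fin n, ∑ U : Finset (Sym2 (Fin n)), (1 / 2 - w s(p.1, p.2) U) =
      1 / 2 * Fintype.card (Finset (Sym2 (Fin n))) := by
    intro p
    rw [sum_sub_distrib, sum_w, sum_const, card_univ, nsmul_eq_mul]
    ring
  simp only [h2]
  rw [sum_const, offDiag_card, nsmul_eq_mul, Nat.cast_sub (Nat.le_mul_self _), Nat.cast_mul]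
  ring

/-- the second moment -/
theorem sum_Z : ∑ U : Finset (Sym2 (Fin n)), Z U ^ 2 ≤
    (n : ℝ) ^ 2 / 2 * Fintype.card (Finset (Sym2 (Fin n))) := by
  have h1 : ∑ U : Finset (Sym2 (Fin n)), Z U ^ 2 =
      ∑ p ∈ (univ : Finset (Fin n)).offDiag, ∑ q ∈ (univ : Finset (Fin n)).offDiag,
        ∑ U : Finset (Sym2 (Fin n)), w s(p.1, p.2) U * w s(q.1, q.2) U := by
    have h2 : ∀ U : Finset (Sym2 (Fin n)), Z U ^ 2 = ∑ p ∈ (univ : Finset (Fin n)).offDiag,
        ∑ q ∈ (univ : Finset (Fin n)).offDiag, w s(p.1, p.2) U * w s(q.1, q.2) U := by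
      intro U
      unfold Z
      rw [sq, sum_mul_sum]
    simp only [h2]
    rw [sum_comm]
    refine sum_congr rfl fun p _ => ?_
    rw [sum_comm]
  have h3 : ∀ p ∈ (univ : Finset (Fin n)).offDiag, ∑ q ∈ (univ : Finset (Fin n)).offDiag,
        ∑ U : Finset (Sym2 (Fin n)), w s(p.1, p.2) U * w s(q.1, q.2) U ≤
      1 / 2 * Fintype.card (Finset (Sym2 (Fin n))) := by
    intro p _
    have h4 : ∀ q : Fin n × Fin n, ∑ U : Finset (Sym2 (Fin n)), w s(p.1, p.2) U * w s(q.1, q.2) U =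
        if s(p.1, p.2) = s(q.1, q.2) then 1 / 4 * (Fintype.card (Finset (Sym2 (Fin n))) : ℝ)
        else 0 := by
      intro q
      split_ifs with h
      · rw [← h]
        simp only [w_mul_self]
        rw [sum_const, card_univ, nsmul_eq_mul]
        ring
      · exact sum_w_mul h
    simp only [h4]
    rw [← sum_filter, sum_const, nsmul_eq_mul]
    have h5 : ((univ : Finset (Fin n)).offDiag.filter
        (fun q => s(p.1, p.2) = s(q.1, q.2))).card ≤ 2 := by
      refine (card_le_card ?_).trans (card_le_two (a := p) (b := p.swap))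
      intro q hq
      rw [mem_filter] at hq
      rw [mem_insert, mem_singleton]
      rcases Sym2.eq_iff.mp hq.2 with h | h
      · left
        exact Prod.ext h.1.symm h.2.symm
      · right
        exact Prod.ext h.2.symm h.1.symm
    have h6 : (((univ : Finset (Fin n)).offDiag.filter
        (fun q => s(p.1, p.2) = s(q.1, q.2))).card : ℝ) ≤ 2 := by exact_mod_cast h5
    have h7 : (0 : ℝ) ≤ Fintype.card (Finset (Sym2 (Fin n))) := Nat.cast_nonneg _
    nlinarith
  rw [h1]
  refine (sum_le_sum h3).trans ?_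
  rw [sum_const, nsmul_eq_mul, card_off]
  have h7 : (0 : ℝ) ≤ Fintype.card (Finset (Sym2 (Fin n))) := Nat.cast_nonneg _
  have h8 : (0 : ℝ) ≤ n := Nat.cast_nonneg n
  nlinarith [mul_nonneg h7 h8]

/-- Chebyshev -/
theorem card_bad (hn : 0 < n) :
    ((univ.filter (fun U : Finset (Sym2 (Fin n)) => 2 * (n : ℝ) < |Z U|)).card : ℝ) ≤
      Fintype.card (Finset (Sym2 (Fin n))) / 8 := by
  have hn0 : (0 : ℝ) < n := by exact_mod_cast hn
  have h1 : ((univ.filter (fun U : Finset (Sym2 (Fin n)) => 2 * (n : ℝ) < |Z U|)).card : ℝ) *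
      (4 * (n : ℝ) ^ 2) ≤ ∑ U : Finset (Sym2 (Fin n)), Z U ^ 2 := by
    rw [← nsmul_eq_mul, ← sum_const]
    refine (sum_le_sum fun U hU => ?_).trans
      (sum_le_sum_of_subset_of_nonneg (filter_subset _ univ) fun U _ _ => sq_nonneg (Z U))
    rw [mem_filter] at hU
    rw [← sq_abs (Z U)]
    nlinarith [hU.2]
  have h2 := h1.trans sum_Z
  have h3 : (0 : ℝ) < 4 * (n : ℝ) ^ 2 := by positivity
  rw [← le_div_iff₀ h3] at h2
  refine h2.trans (le_of_eq ?_)
  field_simp
  ring

/-- the sum over the thresholds, for one outcome -/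
theorem one_outcome (x y M lo hi : ℕ) (hxy : x ≤ y) (hyM : y ≤ x + M) :
    ((y : ℝ) - x) - M * (if x + 1 < lo ∨ hi < y then 1 else 0) ≤
      ∑ θ ∈ Icc lo hi, ((if θ ≤ y then (1 : ℝ) else 0) - if θ ≤ x then 1 else 0) := by
  have h0 : ∀ θ : ℕ, 0 ≤ (if θ ≤ y then (1 : ℝ) else 0) - if θ ≤ x then 1 else 0 := by
    intro θ
    by_cases h1 : θ ≤ x
    · rw [if_pos h1, if_pos (h1.trans hxy), sub_self]
    · rw [if_neg h1, sub_zero]
      split_ifs <;> norm_num
  by_cases hbad : x + 1 < lo ∨ hi < y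
  · rw [if_pos hbad, mul_one]
    have h1 : (y : ℝ) ≤ x + M := by exact_mod_cast hyM
    exact le_trans (by linarith) (sum_nonneg fun θ _ => h0 θ)
  · rw [if_neg hbad, mul_zero, sub_zero]
    push Not at hbad
    have h1 : Ioc x y ⊆ Icc lo hi := by
      intro θ hθ
      rw [mem_Ioc] at hθ
      rw [mem_Icc]
      omega
    refine le_trans (le_of_eq ?_) (sum_le_sum_of_subset_of_nonneg h1 fun θ _ _ => h0 θ)
    rw [sum_congr rfl (g := fun _ => (1 : ℝ)) fun θ hθ => ?_]
    · rw [sum_const, Nat.card_Ioc, nsmul_eq_mul, mul_one, Nat.cast_sub hxy]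
    · rw [mem_Ioc] at hθ
      rw [if_pos hθ.2, if_neg (by omega), sub_zero]

end counts

/-- (S1) -/
theorem stCount : StCount := by
  classical
  refine ⟨1 / 32, by norm_num, ?_⟩
  intro n k hk hkn
  have hn4 : 4 ≤ n := by nlinarith
  have hnr : (4 : ℝ) ≤ n := by exact_mod_cast hn4
  have hkr : (2 : ℝ) ≤ k := by exact_mod_cast hk
  have hknr : (k : ℝ) ^ 2 ≤ n := by exact_mod_cast hkn
  have hkn' : k ≤ n := by nlinarith
  set XX := {S : Finset (Fin n) // S.card = k} with hXX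
  have hne : Nonempty XX := by
    obtain ⟨S, hS⟩ := Finset.exists_subset_card_eq (s := (univ : Finset (Fin n))) (n := k)
      (by rw [card_univ, Fintype.card_fin]; exact hkn')
    exact ⟨⟨S, hS.2⟩⟩
  set CU : ℝ := ((Fintype.card (Finset (Sym2 (Fin n))) : ℕ) : ℝ) with hCU
  set CX : ℝ := ((Fintype.card XX : ℕ) : ℝ) with hCX
  have hCU0 : 0 < CU := by rw [hCU]; exact_mod_cast Fintype.card_pos
  have hCX0 : 0 < CX := by rw [hCX]; exact_mod_cast Fintype.card_pos
  set M : ℕ := k * k - k with hM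
  have hMr : (M : ℝ) = k * k - k := by
    rw [hM, Nat.cast_sub (Nat.le_mul_self k), Nat.cast_mul]
  set μ : ℕ := (n * n - n) / 2 with hμ
  have hμr : (μ : ℝ) = (n * n - n) / 2 := by
    have h1 : 2 ∣ n * n - n := by
      have : n * n - n = n * (n - 1) := by rw [Nat.mul_sub, Nat.mul_one]
      rw [this]
      exact (Nat.even_mul_pred_self n).two_dvd
    rw [hμ, Nat.cast_div h1 (by norm_num), Nat.cast_sub (Nat.le_mul_self n), Nat.cast_mul]
    norm_num
  set lo := μ - 2 * n with hlo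
  set hi := μ + 3 * n with hhi
  -- the bad outcomes
  have hbad : ∀ (U : Finset (Sym2 (Fin n))) (S : XX), (xn U + 1 < lo ∨ hi < yn U S.1) →
      2 * (n : ℝ) < |Z U| := by
    intro U S h
    have h1 := xn_eq U
    rw [← hμr] at h1
    rcases h with h | h
    · have h2 : xn U + 1 + 2 * n < μ := by omega
      have h3 : (xn U : ℝ) + 1 + 2 * n < μ := by exact_mod_cast h2
      rw [lt_abs]
      right
      linarith
    · have h2 := (yn_bounds U S.1).2
      rw [S.2] at h2
      have h3 : μ + 3 * n < xn U + M := by omega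
      have h4 : (μ : ℝ) + 3 * n < xn U + M := by exact_mod_cast h3
      rw [lt_abs]
      left
      nlinarith
  -- the sum over all outcomes and all thresholds
  have hsum : 3 / 8 * M * (CU * CX) ≤ ∑ θ ∈ Icc lo hi, ∑ x : Finset (Sym2 (Fin n)) × XX,
      ((if θ ≤ yn x.1 x.2.1 then (1 : ℝ) else 0) - if θ ≤ xn x.1 then 1 else 0) := by
    rw [sum_comm]
    have h1 : ∀ x : Finset (Sym2 (Fin n)) × XX, ((yn x.1 x.2.1 : ℝ) - xn x.1) -
        M * (if 2 * (n : ℝ) < |Z x.1| then 1 else 0) ≤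
        ∑ θ ∈ Icc lo hi, ((if θ ≤ yn x.1 x.2.1 then (1 : ℝ) else 0) - if θ ≤ xn x.1 then 1 else 0) := by
      intro x
      have h2 := yn_bounds x.1 x.2.1
      rw [x.2.2] at h2
      refine le_trans ?_ (one_outcome (xn x.1) (yn x.1 x.2.1) M lo hi h2.1 h2.2)
      refine sub_le_sub_left (mul_le_mul_of_nonneg_left ?_ (Nat.cast_nonneg M)) _
      by_cases h3 : xn x.1 + 1 < lo ∨ hi < yn x.1 x.2.1
      · rw [if_pos h3, if_pos (hbad x.1 x.2 h3)]
      · rw [if_neg h3]
        split_ifs <;> norm_num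
    refine le_trans ?_ (sum_le_sum fun x _ => h1 x)
    rw [sum_sub_distrib, ← mul_sum, Fintype.sum_prod_type_right, Fintype.sum_prod_type]
    have h3 : ∑ S : XX, ∑ U : Finset (Sym2 (Fin n)), ((yn U S.1 : ℝ) - xn U) = M / 2 * CU * CX := by
      have h4 : ∀ S : XX, ∑ U : Finset (Sym2 (Fin n)), ((yn U S.1 : ℝ) - xn U) = M / 2 * CU := by
        intro S
        rw [sum_D, S.2, hMr]
      simp only [h4]
      rw [sum_const, card_univ, nsmul_eq_mul]
      ring
    have h5 : ∑ U : Finset (Sym2 (Fin n)), ∑ _S : XX, (if 2 * (n : ℝ) < |Z U| then (1 : ℝ) else 0) ≤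
        CU / 8 * CX := by
      simp only [sum_const, card_univ, nsmul_eq_mul]
      rw [← mul_sum, Finset.sum_boole]
      have := card_bad (n := n) (by omega)
      nlinarith
    have h6 : (0 : ℝ) ≤ M := Nat.cast_nonneg M
    have h7 := mul_le_mul_of_nonneg_left h5 h6
    show _ ≤ ∑ S : XX, ∑ U : Finset (Sym2 (Fin n)), ((yn U S.1 : ℝ) - xn U) -
      M * ∑ U : Finset (Sym2 (Fin n)), ∑ _S : XX, (if 2 * (n : ℝ) < |Z U| then (1 : ℝ) else 0)
    rw [h3]
    linarith
  -- a good threshold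
  have hcard : ((Icc lo hi).card : ℝ) ≤ 6 * n := by
    rw [Nat.card_Icc]
    have : hi + 1 - lo ≤ 6 * n := by omega
    exact_mod_cast this
  obtain ⟨θ, hθ, hθ2⟩ : ∃ θ ∈ Icc lo hi, M / (16 * n) * (CU * CX) ≤
      ∑ x : Finset (Sym2 (Fin n)) × XX,
        ((if θ ≤ yn x.1 x.2.1 then (1 : ℝ) else 0) - if θ ≤ xn x.1 then 1 else 0) := by
    by_contra hcon
    push Not at hcon
    have hIne : (Icc lo hi).Nonempty := ⟨hi, mem_Icc.mpr ⟨by omega, le_refl _⟩⟩
    have h1 := sum_lt_sum_of_nonempty hIne hcon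
    rw [sum_const, nsmul_eq_mul] at h1
    have h2 : ((Icc lo hi).card : ℝ) * (M / (16 * n) * (CU * CX)) ≤
        6 * n * (M / (16 * n) * (CU * CX)) := mul_le_mul_of_nonneg_right hcard (by positivity)
    have h3 : 6 * n * (M / (16 * n) * (CU * CX)) = 3 / 8 * M * (CU * CX) := by
      field_simp
      ring
    linarith
  refine ⟨θ, ?_⟩
  -- from sets of pairs to graphs
  have h3 := Pool.Agent.T9h68.QC.stGr n XX
    (fun G S => (θ : ℝ) ≤ ∑ p : Fin n × Fin n, (if graphInput (withClique G S.1) p = true then (1 : ℝ) else 0))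
  have h4 := Pool.Agent.T9h68.QC.stGr n Unit
    (fun G _ => (θ : ℝ) ≤ ∑ p : Fin n × Fin n, (if graphInput G p = true then (1 : ℝ) else 0))
  have h5 : prob (fun x : Finset (Sym2 (Fin n)) × Unit =>
      (θ : ℝ) ≤ ∑ p : Fin n × Fin n, (if graphInput (gr x.1) p = true then (1 : ℝ) else 0)) =
      prob (fun U : Finset (Sym2 (Fin n)) =>
        (θ : ℝ) ≤ ∑ p : Fin n × Fin n, (if graphInput (gr U) p = true then (1 : ℝ) else 0)) :=
    prob_equiv2 (Equiv.prodPUnit _) (fun U : Finset (Sym2 (Fin n)) =>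
        (θ : ℝ) ≤ ∑ p : Fin n × Fin n, (if graphInput (gr U) p = true then (1 : ℝ) else 0))
  have h6 : prob (fun x : SimpleGraph (Fin n) × Unit =>
      (θ : ℝ) ≤ ∑ p : Fin n × Fin n, (if graphInput x.1 p = true then (1 : ℝ) else 0)) =
      prob (fun G : SimpleGraph (Fin n) =>
        (θ : ℝ) ≤ ∑ p : Fin n × Fin n, (if graphInput G p = true then (1 : ℝ) else 0)) :=
    prob_equiv2 (Equiv.prodPUnit _) (fun G : SimpleGraph (Fin n) =>
        (θ : ℝ) ≤ ∑ p : Fin n × Fin n, (if graphInput G p = true then (1 : ℝ) else 0))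
  rw [h5, h6] at h4
  rw [← h3, ← h4]
  simp only [sum_x, sum_y, Nat.cast_le]
  rw [prob_eq2, prob_eq2]
  rw [sum_sub_distrib] at hθ2
  rw [Fintype.card_prod, Nat.cast_mul, ← hCU, ← hCX]
  have h7 : ∑ x : Finset (Sym2 (Fin n)) × XX, (if θ ≤ xn x.1 then (1 : ℝ) else 0) =
      CX * ∑ U : Finset (Sym2 (Fin n)), (if θ ≤ xn U then (1 : ℝ) else 0) := by
    rw [Fintype.sum_prod_type, mul_sum]
    refine sum_congr rfl fun U _ => ?_
    show ∑ _S : XX, (if θ ≤ xn U then (1 : ℝ) else 0) = _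
    rw [sum_const, card_univ, nsmul_eq_mul]
  rw [h7] at hθ2
  have h8 : (k : ℝ) ^ 2 / 2 ≤ M := by
    rw [hMr]
    nlinarith
  rw [div_add' _ _ _ hCU0.ne', div_le_div_iff₀ hCU0 (mul_pos hCU0 hCX0)]
  have h9 : 1 / 32 * ((k : ℝ) ^ 2 / n) ≤ M / (16 * n) := by
    rw [div_mul_div_comm, div_le_div_iff₀ (by positivity) (by positivity)]
    nlinarith
  have h10 : 1 / 32 * ((k : ℝ) ^ 2 / n) * (CU * CX) ≤ M / (16 * n) * (CU * CX) :=
    mul_le_mul_of_nonneg_right h9 (by positivity)
  nlinarith [hθ2, h10]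

end Pool.Agent.T9h51.QC
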