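import Pool.Agent.T9h34.Q.Spec3
import Pool.Agent.T9h51.QC.Circ

set_option autoImplicit false
set_option linter.unusedSectionVars false

/-!
# (G2') Induction over the gates, with the indicator of acceptance
-/

namespace Pool.Agent.T9h51.QC

open Finset Pool.Agent.T9h34.Q
open Pool.Agent.T9h34 (graphInput)
open Pool.Agent.T9h34.P (gr graphInput_mono)
open Pool.Agent.T9h35.RW (Gate Test Src Circuit runGates forall₂_map_le test_eval)
open Pool.Agent.HC34 (srcs IsLevel DepthLE)

variable {n B d m : ℕ}

/-- all sources of the output, before the last reduction -/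
theorem circ_out (hR : StReduce) {f c q D : ℕ} (C : Circuit (Fin n × Fin n)) (lev : ℕ → ℕ)
    (hg : ∀ g ∈ C.gates, g.IsMono f) (hlev : ∀ j < C.size, lev j < D) (hL : IsLevel C lev)
    (hc : 2 ≤ c) (hq : ((f * c) ^ 2 + 1) * (f * c + 1) ≤ q) (ω : Env (Fin n) B d m)
    (S : Finset (Fin n))
    (hB1 : ∀ j < C.size, ¬ Bad (srcVal C (.gate j)) (q * lev j) q (c + 1) (f * c) S ω) :
    ∃ T ⊆ S, T.card ≤ c ∧ srcVal C C.out.1 (ω.1 ∪ KT S) ≤ srcVal C C.out.1 (cfg ω (q * D) T) := by
  have hred : ∀ (a : Src (Fin n × Fin n)) (t c' w : ℕ), (w ^ 2 + 1) * (w + 1) ≤ q →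
      ∀ T ⊆ S, T.card ≤ w → ¬ Bad (srcVal C a) t q (c' + 1) w S ω →
      ∃ T' ⊆ T, T'.card ≤ c' ∧ srcVal C a (cfg ω t T) ≤ srcVal C a (cfg ω (t + q) T') :=
    fun a t c' w hw T hT hTw hb =>
      hR (Fin n) B d m (srcVal C a) (srcVal_mono C hg a) t q c' w hw ω S T hT hTw hb
  have key : ∀ j : ℕ, j < C.size → ∃ T ⊆ S, T.card ≤ c ∧
      srcVal C (.gate j) (ω.1 ∪ KT S) ≤ srcVal C (.gate j) (cfg ω (q * (lev j + 1)) T) := by
    intro j
    induction j using Nat.strong_induction_on with
    | _ j ih =>
      intro hj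
      obtain ⟨g, hgj⟩ : ∃ g, C.gates[j]? = some g :=
        ⟨_, List.getElem?_eq_getElem hj⟩
      have hgm : g.IsMono f := hg g (List.mem_of_getElem? hgj)
      have hval : ∀ U, srcVal C (.gate j) U = g.eval (graphInput (gr U))
          (runGates (graphInput (gr U)) (C.gates.take j)) := fun U =>
        getD_runGates (graphInput (gr U)) C.gates j g hgj
      cases g with
      | other tests φ => exact absurd hgm (by simp [Gate.IsMono])
      | mono args φ =>
        have hpre : ∀ g ∈ C.gates.take j, g.IsMono f := fun g' hg' =>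
          hg g' (List.mem_of_mem_take hg')
        have hsrc : ∀ a ∈ args, ∃ T ⊆ S, T.card ≤ c ∧
            valAt (C.gates.take j) a (ω.1 ∪ KT S) ≤
              valAt (C.gates.take j) a (cfg ω (q * lev j) T) := by
          intro a ha
          refine source_case (C.gates.take j) hpre ω S c (q * lev j) hc a ?_
          intro i hi hai
          have hij : i < j := by
            rw [List.length_take] at hi
            exact hi.trans_le (min_le_left _ _)
          have hlt : lev i < lev j :=
            hL i j _ hgj (by simp only [srcs]; rw [← hai]; exact ha) hij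
          obtain ⟨T, hT, hTc, hTv⟩ := ih i hij (hij.trans hj)
          refine ⟨q * (lev i + 1), Nat.mul_le_mul_left _ hlt, T, hT, hTc, ?_⟩
          have e : ∀ U, valAt (C.gates.take j) (.gate i) U = srcVal C (.gate i) U := fun U =>
            getD_take (graphInput (gr U)) C.gates i j hij
          rw [e, e]
          exact hTv
        obtain ⟨T, hT, hTc, hTv⟩ := exists_common S c
          (fun a T => valAt (C.gates.take j) a (ω.1 ∪ KT S) ≤
              valAt (C.gates.take j) a (cfg ω (q * lev j) T))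
          (fun a T T' hTT' h => h.trans
            (valAt_mono _ hpre a (cfg_mono ω (le_refl _) hTT'))) args hsrc
        have hTc' : T.card ≤ f * c := hTc.trans (Nat.mul_le_mul_right _ hgm.1)
        obtain ⟨T', hT', hTc'', hTv'⟩ := hred (.gate j) (q * lev j) c (f * c) hq T hT hTc' (hB1 j hj)
        refine ⟨T', hT'.trans hT, hTc'', ?_⟩
        have e : q * (lev j + 1) = q * lev j + q := by ring
        rw [e]
        refine le_trans ?_ hTv'
        rw [hval, hval]
        exact hgm.2 _ _ (forall₂_map_le args _ _ hTv)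
  exact source_case C.gates hg ω S c (q * D) hc C.out.1 (by
    intro i hi _
    obtain ⟨T, hT, hTc, hTv⟩ := key i hi
    exact ⟨q * (lev i + 1), Nat.mul_le_mul_left _ (hlev i hi), T, hT, hTc, hTv⟩)

theorem eval_iff (C : Circuit (Fin n × Fin n)) (U : Finset (Sym2 (Fin n))) :
    C.eval (graphInput (gr U)) = true ↔ C.out.2 ≤ srcVal C C.out.1 U := by
  unfold Circuit.eval
  rw [test_eval]
  rfl

theorem outInd_mono (C : Circuit (Fin n × Fin n)) {f : ℕ} (hg : ∀ g ∈ C.gates, g.IsMono f) :
    Monotone (outInd C) := by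
  intro U U' hU
  unfold outInd
  by_cases h : C.eval (graphInput (gr U)) = true
  · rw [if_pos h]
    rw [eval_iff] at h
    rw [if_pos ((eval_iff C U').mpr (h.trans (srcVal_mono C hg _ hU)))]
  · rw [if_neg h]
    split_ifs <;> norm_num

/-- (G2') -/
theorem stCircB (hR : StReduce) : StCircB := by
  intro n B d m f c q D C lev hg hlev hL hf hc hq hqB ω S hB1 hB2 hev
  obtain ⟨T, hT, hTc, hTv⟩ := circ_out hR C lev hg hlev hL hc hq ω S hB1
  have h1 : outInd C (cfg ω (q * D) T) = 1 := by
    unfold outInd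
    rw [if_pos]
    rw [eval_iff] at hev ⊢
    exact hev.trans hTv
  have hcf : c ≤ f * c := by nlinarith
  have hq' : (c ^ 2 + 1) * (c + 1) ≤ q := by
    refine le_trans ?_ hq
    gcongr
  obtain ⟨T', hT', hTc', hTv'⟩ := hR (Fin n) B d m (outInd C) (outInd_mono C hg) (q * D) q 0 c hq'
    ω S T hT hTc hB2
  have hT0 : T' = ∅ := card_eq_zero.mp (Nat.le_zero.mp hTc')
  subst hT0
  have hTv2 : outInd C (cfg ω (q * D) T) ≤ outInd C (cfg ω (q * D + q) ∅) := hTv'
  rw [cfg_empty, h1] at hTv2
  have h2 : outInd C (stage ω (q * D + q)) ≤ outInd C (stage ω B) :=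
    outInd_mono C hg (stage_mono ω (by
      calc q * D + q = q * (D + 1) := by ring
        _ ≤ B := hqB))
  by_contra hcon
  have h3 : outInd C (stage ω B) = 0 := by
    unfold outInd
    rw [if_neg hcon]
  linarith

end Pool.Agent.T9h51.QC
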